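import Pool.Agent.Helper805.ChainM.En
import Pool.Agent.Helper805.Chain.Certs
set_option autoImplicit false

/-! All the inclusions `Alt_m(Φ) ⊂ Alt_{m+1}(Φ)`, `m ≥ 4`, are strict when `210` is not nilpotent in `Φ`. -/

namespace Pool.Agent.Helper805.ChainM.All
open Pool.Agent.Helper805.Chain Pool.Agent.Helper805.Chain.Var Pool.Agent.Helper805.ChainM.En

section
variable {K : Type} [Field K] (h2 : (2 : K) ≠ 0) (h3 : (3 : K) ≠ 0) (h5 : (5 : K) ≠ 0) (h7 : (7 : K) ≠ 0)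
include h2 h3 h5 h7

theorem c5 : (((6772211712 * 381024 : ℤ) * 8640 * 6 : ℤ) : K) ≠ 0 := by
  have h : (((6772211712 * 381024 : ℤ) * 8640 * 6 : ℤ) : K) = (2 : K) ^ 26 * 3 ^ 19 * 5 * 7 ^ 3 := by norm_num
  rw [h]
  exact mul_ne_zero (mul_ne_zero (mul_ne_zero (pow_ne_zero _ h2) (pow_ne_zero _ h3)) h5) (pow_ne_zero _ h7)

theorem c6 : (((2016 * 1741824 : ℤ) * 25920 * 6 : ℤ) : K) ≠ 0 := by
  have h : (((2016 * 1741824 : ℤ) * 25920 * 6 : ℤ) : K) = (2 : K) ^ 22 * 3 ^ 12 * 5 * 7 ^ 2 := by norm_num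
  rw [h]
  exact mul_ne_zero (mul_ne_zero (mul_ne_zero (pow_ne_zero _ h2) (pow_ne_zero _ h3)) h5) (pow_ne_zero _ h7)

end

theorem strict (Φ : Type) [CommRing Φ] (h : ¬ IsNilpotent (210 : Φ)) (m : ℕ) (hm : 4 ≤ m) : Strict Φ m := by
  obtain ⟨K, _, f, hK⟩ := exists_field Φ h
  obtain ⟨h2, h3, h5, h7⟩ := ne_of_210 hK
  exact strict_all' PF_five PF_six (nonvan5 f h2 PF_five _ PF_five_F (c5 h2 h3 h5 h7))
    (nonvan6 f h2 PF_six _ PF_six_F (c6 h2 h3 h5 h7)) m hm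

end Pool.Agent.Helper805.ChainM.All
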