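import Pool.Agent.Helper805.ChainM.Tab
set_option autoImplicit false

/-! Structure constants of a superalgebra of rank 26. -/

namespace Pool.Agent.Helper805.ChainM.D6
open Pool.Agent.Helper805.Mod.Sparse Pool.Agent.Helper805.ChainM.Tab


noncomputable def r0 : Tb SV := (Tb.n (Tb.n (Tb.n (Tb.n (Tb.n (Tb.l (SV.p 0 1 SV.nil)) (Tb.l (SV.p 16 1 SV.nil))) (Tb.n (Tb.l (SV.p 8 1 SV.nil)) (Tb.l (SV.p 24 1 SV.nil)))) (Tb.n (Tb.n (Tb.l (SV.p 4 1 SV.nil)) (Tb.l (SV.p 20 1 SV.nil))) (Tb.n (Tb.l (SV.p 12 1 SV.nil)) Tb.e))) (Tb.n (Tb.n (Tb.n (Tb.l (SV.p 2 1 SV.nil)) (Tb.l (SV.p 18 1 SV.nil))) (Tb.n (Tb.l (SV.p 10 1 SV.nil)) Tb.e)) (Tb.n (Tb.n (Tb.l (SV.p 6 1 SV.nil)) (Tb.l (SV.p 22 1 SV.nil)))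 (Tb.n (Tb.l (SV.p 14 1 SV.nil)) Tb.e)))) (Tb.n (Tb.n (Tb.n (Tb.n (Tb.l (SV.p 1 1 SV.nil)) (Tb.l (SV.p 17 1 SV.nil))) (Tb.n (Tb.l (SV.p 9 1 SV.nil)) (Tb.l (SV.p 25 1 SV.nil)))) (Tb.n (Tb.n (Tb.l (SV.p 5 1 SV.nil)) (Tb.l (SV.p 21 1 SV.nil))) (Tb.n (Tb.l (SV.p 13 1 SV.nil)) Tb.e))) (Tb.n (Tb.n (Tb.n (Tb.l (SV.p 3 1 SV.nil)) (Tb.l (SV.p 19 1 SV.nil))) (Tb.n (Tb.l (SV.p 11 1 SV.nil)) Tb.e)) (Tb.n (Tb.n (Tb.l (SV.p 7 1 SV.nil)) (Tb.l (SV.p 23 1 SV.nil))) (Tb.n (Tb.l (SV.p 15 1 SV.nil)) Tb.e)))))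

noncomputable def r1 : Tb SV := (Tb.n (Tb.n (Tb.n (Tb.n (Tb.n (Tb.l (SV.p 1 1 SV.nil)) (Tb.l (SV.p 14 1 SV.nil))) (Tb.n (Tb.l (SV.p 6 1 (SV.n 10 1 SV.nil))) (Tb.l (SV.p 21 1 SV.nil)))) (Tb.n (Tb.n (Tb.l (SV.p 2 1 (SV.n 6 1 SV.nil))) (Tb.l (SV.p 17 1 SV.nil))) (Tb.n (Tb.l (SV.p 10 1 SV.nil)) Tb.e))) (Tb.n (Tb.n (Tb.n (Tb.l (SV.p 4 1 SV.nil)) (Tb.l (SV.p 15 1 SV.nil))) (Tb.n (Tb.l (SV.p 12 1 SV.nil)) Tb.e)) (Tb.n (Tb.n (Tb.l (SV.p 8 1 SV.nil)) (Tb.l (SV.p 19 1 SV.nil))) (Tb.n (Tb.l (SV.p 16 2 (SV.n 24 1 SV.nil))) Tb.e)))) (Tb.n (Tb.n (Tb.n (Tb.n (Tb.l (SV.p 0 1 SV.nil)) (Tb.l (SV.n 16 1 (SV.p 20 2 (SV.p 24 3 SV.nil))))) (Tb.n (Tb.l (SV.p 7 1 (SV.n 11 1 SV.nil))) (Tb.l (SV.p 23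 1 SV.nil)))) (Tb.n (Tb.n (Tb.l (SV.p 3 1 (SV.n 7 1 SV.nil))) (Tb.l (SV.n 20 1 (SV.n 24 1 SV.nil)))) (Tb.n (Tb.l (SV.p 11 1 SV.nil)) Tb.e))) (Tb.n (Tb.n (Tb.n (Tb.l (SV.p 5 1 SV.nil)) (Tb.l (SV.n 18 1 (SV.p 22 2 (SV.p 25 3 SV.nil))))) (Tb.n (Tb.l (SV.p 13 1 SV.nil)) Tb.e)) (Tb.n (Tb.n (Tb.l (SV.p 9 1 SV.nil)) (Tb.l (SV.n 22 1 (SV.n 25 1 SV.nil)))) (Tb.n (Tb.l (SV.p 18 2 (SV.n 25 1 SV.nil))) Tb.e)))))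

noncomputable def r2 : Tb SV := (Tb.n (Tb.n (Tb.n (Tb.n (Tb.n (Tb.l (SV.p 2 1 SV.nil)) Tb.e) (Tb.n (Tb.l (SV.p 15 4 (SV.p 16 4 (SV.p 19 9 (SV.p 20 4 (SV.p 23 10 (SV.p 24 4 SV.nil))))))) Tb.e)) (Tb.n (Tb.n (Tb.l (SV.n 15 4 (SV.n 16 6 (SV.n 19 6 (SV.n 20 5 (SV.n 23 3 (SV.n 24 2 SV.nil))))))) Tb.e) (Tb.n (Tb.l (SV.p 15 3 (SV.n 16 2 (SV.n 19 1 (SV.n 20 2 (SV.n 23 5 (SV.n 24 2 SV.nil))))))) Tb.e))) (Tb.n (Tb.n (Tb.n (Tb.l (SV.p 21 9 (SV.n 22 4 (SV.n 25 16 SV.nil)))) Tb.e) (Tb.n (Tb.l (SV.n 14 2 (SV.n 18 5 (SV.p 21 2 (SV.n 22 3 (SV.n 25 1 SV.nil)))))) Tb.e)) (Tb.n (Tb.n (Tb.l (SV.n 14 6 (SV.n 17 2 (SV.n 18 4 (SV.p 21 4 (SV.n 22 11 (SV.n 25 16 SV.nil))))))) Tb.e) Tb.e))) (Tb.n (Tb.n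 (Tb.n (Tb.n (Tb.l (SV.p 3 1 SV.nil)) Tb.e) (Tb.n (Tb.l (SV.n 14 2 (SV.p 17 4 (SV.n 18 2 (SV.p 21 6 (SV.p 22 1 (SV.p 25 4 SV.nil))))))) Tb.e)) (Tb.n (Tb.n (Tb.l (SV.n 14 4 (SV.n 17 6 (SV.n 18 3 (SV.n 21 3 (SV.n 22 5 (SV.n 25 5 SV.nil))))))) Tb.e) (Tb.n (Tb.l (SV.p 14 4 (SV.p 18 1 (SV.n 21 4 (SV.p 22 1 (SV.p 25 1 SV.nil)))))) Tb.e))) (Tb.n (Tb.n (Tb.n (Tb.l (SV.p 19 9 (SV.p 20 5 (SV.p 23 27 (SV.p 24 2 SV.nil))))) Tb.e) (Tb.n (Tb.l (SV.n 15 3 (SV.n 16 4 (SV.n 19 1 (SV.n 20 2 (SV.p 23 1 SV.nil)))))) Tb.e)) (Tb.n (Tb.n (Tb.l (SV.n 15 3 (SV.p 16 2 (SV.n 20 4 (SV.p 23 5 (SV.n 24 8 SV.nil)))))) Tb.e) Tb.e))))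

noncomputable def r3 : Tb SV := (Tb.n (Tb.n (Tb.n (Tb.n (Tb.n (Tb.l (SV.p 3 1 SV.nil)) Tb.e) (Tb.n (Tb.l (SV.p 17 3 (SV.n 18 3 (SV.p 21 8 (SV.n 22 9 (SV.n 25 13 SV.nil)))))) Tb.e)) (Tb.n (Tb.n (Tb.l (SV.p 21 9 (SV.n 22 4 (SV.n 25 16 SV.nil)))) Tb.e) (Tb.n (Tb.l (SV.n 14 3 (SV.n 17 1 (SV.n 18 4 (SV.p 21 1 (SV.n 22 2 SV.nil)))))) Tb.e))) (Tb.n (Tb.n (Tb.n (Tb.l (SV.n 15 4 (SV.n 16 6 (SV.n 19 6 (SV.n 20 5 (SV.n 23 3 (SV.n 24 2 SV.nil))))))) Tb.e) (Tb.n (Tb.l (SV.n 16 3 (SV.n 19 4 (SV.n 20 3 (SV.n 23 8 (SV.n 24 3 SV.nil)))))) Tb.e)) (Tb.n (Tb.n (Tb.l (SV.p 15 3 (SV.p 16 6 (SV.p 19 5 (SV.p 20 5 (SV.p 23 3 (SV.p 24 4 SV.nil))))))) Tb.e) Tb.e))) (Tb.n (Tb.n (Tb.n (Tb.n (Tb.l (SV.p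 2 1 (SV.p 6 1 SV.nil))) Tb.e) (Tb.n (Tb.l (SV.p 19 2 (SV.n 20 5 (SV.p 23 6 (SV.n 24 8 SV.nil))))) Tb.e)) (Tb.n (Tb.n (Tb.l (SV.p 15 6 (SV.p 16 3 (SV.p 19 15 (SV.p 20 6 (SV.p 23 29 (SV.p 24 1 SV.nil))))))) Tb.e) (Tb.n (Tb.l (SV.n 16 3 (SV.p 19 2 (SV.n 20 1 (SV.p 23 4 (SV.p 24 1 SV.nil)))))) Tb.e))) (Tb.n (Tb.n (Tb.n (Tb.l (SV.p 14 2 (SV.p 17 5 (SV.n 18 3 (SV.p 21 11 (SV.n 22 6 (SV.n 25 9 SV.nil))))))) Tb.e) (Tb.n (Tb.l (SV.p 14 3 (SV.n 17 1 (SV.p 18 2 (SV.n 21 5 (SV.p 22 2 (SV.p 25 2 SV.nil))))))) Tb.e)) (Tb.n (Tb.n (Tb.l (SV.p 14 3 (SV.p 17 6 (SV.p 21 5 (SV.p 22 2 (SV.p 25 4 SV.nil)))))) Tb.e) Tb.e))))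

noncomputable def r4 : Tb SV := (Tb.n (Tb.n (Tb.n (Tb.n (Tb.n (Tb.l (SV.p 4 1 SV.nil)) Tb.e) (Tb.n (Tb.l (SV.n 17 1 (SV.p 18 3 (SV.n 21 2 (SV.p 22 9 (SV.p 25 11 SV.nil)))))) Tb.e)) (Tb.n (Tb.n (Tb.l (SV.n 17 3 (SV.p 18 2 (SV.n 21 6 (SV.p 22 2 (SV.p 25 5 SV.nil)))))) Tb.e) (Tb.n (Tb.l (SV.n 14 1 (SV.n 17 1 (SV.p 18 6 (SV.n 21 1 (SV.p 22 2 (SV.n 25 2 SV.nil))))))) Tb.e))) (Tb.n (Tb.n (Tb.n (Tb.l (SV.n 19 4 (SV.n 20 9 (SV.n 23 16 (SV.n 24 9 SV.nil))))) Tb.e) (Tb.n (Tb.l (SV.n 15 2 (SV.n 16 3 (SV.n 20 1 (SV.p 23 2 (SV.p 24 1 SV.nil)))))) Tb.e)) (Tb.n (Tb.n (Tb.l (SV.n 15 3 (SV.n 16 12 (SV.n 19 7 (SV.n 20 9 (SV.n 23 9 (SV.n 24 4 SV.nil))))))) Tb.e) Tb.e))) (Tb.n (Tb.n (Tb.n (Tb.n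 (Tb.l (SV.p 5 1 (SV.n 6 1 SV.nil))) Tb.e) (Tb.n (Tb.l (SV.n 15 2 (SV.n 16 2 (SV.p 20 5 (SV.p 23 2 (SV.p 24 8 SV.nil)))))) Tb.e)) (Tb.n (Tb.n (Tb.l (SV.n 15 6 (SV.n 16 7 (SV.n 19 11 (SV.n 20 6 (SV.n 23 12 (SV.n 24 2 SV.nil))))))) Tb.e) (Tb.n (Tb.l (SV.n 15 2 (SV.p 16 7 (SV.n 19 2 (SV.p 20 3 (SV.n 23 2 (SV.n 24 1 SV.nil))))))) Tb.e))) (Tb.n (Tb.n (Tb.n (Tb.l (SV.n 14 6 (SV.n 17 6 (SV.n 18 9 (SV.n 21 12 (SV.n 22 8 (SV.p 25 4 SV.nil))))))) Tb.e) (Tb.n (Tb.l (SV.n 14 3 (SV.n 17 1 (SV.n 18 6 (SV.p 21 1 (SV.n 22 4 (SV.n 25 2 SV.nil))))))) Tb.e)) (Tb.n (Tb.n (Tb.l (SV.n 14 3 (SV.n 17 6 (SV.n 18 8 (SV.n 21 7 (SV.n 22 6 (SV.n 25 2 SV.nil))))))) Tb.e) Tb.e))))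

noncomputable def r5 : Tb SV := (Tb.n (Tb.n (Tb.n (Tb.n (Tb.n (Tb.l (SV.p 5 1 SV.nil)) Tb.e) (Tb.n (Tb.l (SV.n 16 6 (SV.n 19 7 (SV.n 20 4 (SV.n 23 12 SV.nil))))) Tb.e)) (Tb.n (Tb.n (Tb.l (SV.n 15 3 (SV.p 16 3 (SV.n 19 5 (SV.n 20 5 (SV.n 23 15 (SV.n 24 4 SV.nil))))))) Tb.e) (Tb.n (Tb.l (SV.n 15 5 (SV.n 16 4 (SV.n 19 3 (SV.n 20 2 (SV.n 23 1 SV.nil)))))) Tb.e))) (Tb.n (Tb.n (Tb.n (Tb.l (SV.p 17 6 (SV.n 18 2 (SV.p 21 12 (SV.n 22 10 (SV.n 25 15 SV.nil)))))) Tb.e) (Tb.n (Tb.l (SV.p 18 5 (SV.p 22 1 (SV.n 25 3 SV.nil)))) Tb.e)) (Tb.n (Tb.n (Tb.l (SV.p 14 6 (SV.p 17 6 (SV.n 18 2 (SV.p 21 6 (SV.p 22 3 (SV.p 25 4 SV.nil))))))) Tb.e) Tb.e))) (Tb.n (Tb.n (Tb.n (Tb.n (Tb.l (SV.p 4 1 (SV.p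 7 1 (SV.p 8 1 SV.nil)))) Tb.e) (Tb.n (Tb.l (SV.n 17 6 (SV.n 21 10 (SV.p 22 1 (SV.p 25 4 SV.nil))))) Tb.e)) (Tb.n (Tb.n (Tb.l (SV.n 18 3 (SV.n 21 6 (SV.p 22 3 (SV.p 25 16 SV.nil))))) Tb.e) (Tb.n (Tb.l (SV.n 14 6 (SV.n 17 4 (SV.n 18 3 (SV.n 21 2 (SV.n 22 1 (SV.p 25 1 SV.nil))))))) Tb.e))) (Tb.n (Tb.n (Tb.n (Tb.l (SV.p 15 3 (SV.n 16 1 (SV.p 19 6 (SV.n 20 1 (SV.p 23 11 SV.nil)))))) Tb.e) (Tb.n (Tb.l (SV.p 15 1 (SV.p 16 8 (SV.p 19 1 (SV.p 20 4 (SV.p 23 1 SV.nil)))))) Tb.e)) (Tb.n (Tb.n (Tb.l (SV.p 15 3 (SV.p 19 6 (SV.p 20 6 (SV.p 23 9 (SV.p 24 8 SV.nil)))))) Tb.e) Tb.e))))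

noncomputable def r6 : Tb SV := (Tb.n (Tb.n (Tb.n (Tb.n (Tb.n (Tb.l (SV.p 6 1 SV.nil)) Tb.e) (Tb.n (Tb.l (SV.p 15 2 (SV.p 16 2 (SV.p 19 2 (SV.p 20 2 (SV.p 23 2 (SV.p 24 2 SV.nil))))))) Tb.e)) (Tb.n (Tb.n (Tb.l (SV.n 15 6 (SV.n 16 3 (SV.n 19 6 (SV.n 20 1 (SV.n 23 2 (SV.p 24 1 SV.nil))))))) Tb.e) (Tb.n (Tb.l (SV.n 15 4 (SV.n 19 4 (SV.n 23 4 SV.nil)))) Tb.e))) (Tb.n (Tb.n (Tb.n (Tb.l (SV.p 14 6 (SV.p 17 11 (SV.p 21 14 (SV.n 22 1 (SV.n 25 4 SV.nil)))))) Tb.e) (Tb.n (Tb.l (SV.p 14 2 (SV.p 17 2 (SV.p 18 2 (SV.p 21 2 (SV.p 22 2 (SV.p 25 2 SV.nil))))))) Tb.e)) (Tb.n (Tb.n (Tb.l (SV.p 14 6 (SV.p 17 6 (SV.n 18 2 (SV.p 21 6 (SV.n 22 2 (SV.n 25 2 SV.nil))))))) Tb.e) Tb.e))) (Tb.n (Tb.n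 (Tb.n (Tb.n (Tb.l (SV.p 7 1 SV.nil)) Tb.e) (Tb.n (Tb.l (SV.p 14 2 (SV.p 17 2 (SV.p 18 2 (SV.p 21 2 (SV.p 22 2 (SV.p 25 2 SV.nil))))))) Tb.e)) (Tb.n (Tb.n (Tb.l (SV.n 17 1 (SV.p 21 2 (SV.n 22 1 (SV.n 25 2 SV.nil))))) Tb.e) (Tb.n (Tb.l (SV.n 14 4 (SV.n 17 4 (SV.n 21 4 SV.nil)))) Tb.e))) (Tb.n (Tb.n (Tb.n (Tb.l (SV.p 15 12 (SV.p 16 3 (SV.p 19 18 (SV.p 20 1 (SV.p 23 22 (SV.n 24 3 SV.nil))))))) Tb.e) (Tb.n (Tb.l (SV.p 15 2 (SV.p 16 2 (SV.p 19 2 (SV.p 20 2 (SV.p 23 2 (SV.p 24 2 SV.nil))))))) Tb.e)) (Tb.n (Tb.n (Tb.l (SV.p 15 6 (SV.n 16 2 (SV.p 19 6 (SV.n 20 2 (SV.p 23 6 (SV.n 24 2 SV.nil))))))) Tb.e) Tb.e))))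

noncomputable def r7 : Tb SV := (Tb.n (Tb.n (Tb.n (Tb.n (Tb.n (Tb.l (SV.p 7 1 SV.nil)) Tb.e) (Tb.n (Tb.l (SV.p 14 6 (SV.p 17 6 (SV.n 18 2 (SV.p 21 6 (SV.n 22 2 (SV.n 25 2 SV.nil))))))) Tb.e)) (Tb.n (Tb.n (Tb.l (SV.p 17 6 (SV.n 18 1 (SV.p 21 10 (SV.n 22 3 (SV.n 25 7 SV.nil)))))) Tb.e) (Tb.n (Tb.l (SV.p 14 2 (SV.p 17 2 (SV.p 18 2 (SV.p 21 2 (SV.p 22 2 (SV.p 25 2 SV.nil))))))) Tb.e))) (Tb.n (Tb.n (Tb.n (Tb.l (SV.n 15 5 (SV.n 16 5 (SV.n 19 2 (SV.n 20 2 (SV.p 23 5 (SV.p 24 1 SV.nil))))))) Tb.e) (Tb.n (Tb.l (SV.n 15 4 (SV.n 19 4 (SV.n 23 4 SV.nil)))) Tb.e)) (Tb.n (Tb.n (Tb.l (SV.p 15 2 (SV.p 16 2 (SV.p 19 2 (SV.p 20 2 (SV.p 23 2 (SV.p 24 2 SV.nil))))))) Tb.e) Tb.e))) (Tb.n (Tb.n (Tb.n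 (Tb.n (Tb.l (SV.p 6 1 (SV.p 10 1 SV.nil))) Tb.e) (Tb.n (Tb.l (SV.p 15 2 (SV.n 16 2 (SV.p 19 2 (SV.n 20 2 (SV.p 23 2 (SV.n 24 2 SV.nil))))))) Tb.e)) (Tb.n (Tb.n (Tb.l (SV.p 15 9 (SV.p 16 3 (SV.p 19 12 (SV.p 23 13 (SV.n 24 5 SV.nil)))))) Tb.e) (Tb.n (Tb.l (SV.p 15 2 (SV.p 16 2 (SV.p 19 2 (SV.p 20 2 (SV.p 23 2 (SV.p 24 2 SV.nil))))))) Tb.e))) (Tb.n (Tb.n (Tb.n (Tb.l (SV.n 18 3 (SV.p 21 4 (SV.n 22 5 (SV.n 25 7 SV.nil))))) Tb.e) (Tb.n (Tb.l (SV.n 14 4 (SV.n 17 4 (SV.n 21 4 SV.nil)))) Tb.e)) Tb.e)))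

noncomputable def r8 : Tb SV := (Tb.n (Tb.n (Tb.n (Tb.n (Tb.n (Tb.l (SV.p 8 1 SV.nil)) Tb.e) Tb.e) (Tb.n (Tb.n (Tb.l (SV.n 14 3 (SV.n 17 2 (SV.n 18 3 (SV.n 21 1 (SV.n 22 6 (SV.n 25 5 SV.nil))))))) Tb.e) (Tb.n (Tb.l (SV.n 18 4 (SV.n 22 4 (SV.n 25 4 SV.nil)))) Tb.e))) (Tb.n (Tb.n (Tb.n (Tb.l (SV.n 15 1 (SV.p 16 3 (SV.n 19 5 (SV.p 20 9 (SV.n 23 11 (SV.p 24 13 SV.nil))))))) Tb.e) (Tb.n (Tb.l (SV.p 15 2 (SV.p 16 2 (SV.p 19 2 (SV.p 20 2 (SV.p 23 2 (SV.p 24 2 SV.nil))))))) Tb.e)) (Tb.n (Tb.n (Tb.l (SV.n 15 2 (SV.p 16 6 (SV.n 19 2 (SV.p 20 6 (SV.n 23 2 (SV.p 24 6 SV.nil))))))) Tb.e) Tb.e))) (Tb.n (Tb.n (Tb.n (Tb.n (Tb.l (SV.p 9 1 (SV.n 10 1 SV.nil))) Tb.e) (Tb.n (Tb.l (SV.p 15 4 (SV.p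 19 4 (SV.p 23 4 SV.nil)))) Tb.e)) (Tb.n (Tb.n (Tb.l (SV.n 15 3 (SV.p 16 3 (SV.n 19 1 (SV.n 20 1 (SV.p 23 1 (SV.n 24 1 SV.nil))))))) Tb.e) (Tb.n (Tb.l (SV.n 16 4 (SV.n 20 4 (SV.n 24 4 SV.nil)))) Tb.e))) (Tb.n (Tb.n (Tb.n (Tb.l (SV.p 14 3 (SV.p 18 9 (SV.n 21 5 (SV.p 22 18 (SV.p 25 25 SV.nil)))))) Tb.e) (Tb.n (Tb.l (SV.p 14 2 (SV.p 17 2 (SV.p 18 2 (SV.p 21 2 (SV.p 22 2 (SV.p 25 2 SV.nil))))))) Tb.e)) (Tb.n (Tb.n (Tb.l (SV.p 18 8 (SV.p 22 8 (SV.p 25 8 SV.nil)))) Tb.e) Tb.e))))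

noncomputable def r9 : Tb SV := (Tb.n (Tb.n (Tb.n (Tb.n (Tb.n (Tb.l (SV.p 9 1 SV.nil)) Tb.e) (Tb.n (Tb.l (SV.n 15 2 (SV.p 16 6 (SV.n 19 2 (SV.p 20 6 (SV.n 23 2 (SV.p 24 6 SV.nil))))))) Tb.e)) (Tb.n (Tb.n (Tb.l (SV.n 15 2 (SV.n 16 2 (SV.n 19 3 (SV.p 20 5 (SV.n 23 6 (SV.p 24 10 SV.nil))))))) Tb.e) (Tb.n (Tb.l (SV.p 15 2 (SV.p 16 2 (SV.p 19 2 (SV.p 20 2 (SV.p 23 2 (SV.p 24 2 SV.nil))))))) Tb.e))) (Tb.n (Tb.n (Tb.n (Tb.l (SV.n 18 6 (SV.n 22 8 (SV.n 25 6 SV.nil)))) Tb.e) (Tb.n (Tb.l (SV.n 18 4 (SV.n 22 4 (SV.n 25 4 SV.nil)))) Tb.e)) Tb.e)) (Tb.n (Tb.n (Tb.n (Tb.n (Tb.l (SV.p 8 1 (SV.p 11 1 (SV.p 12 1 SV.nil)))) Tb.e) (Tb.n (Tb.l (SV.p 18 4 (SV.p 22 4 (SV.p 25 4 SV.nil)))) Tb.e))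 (Tb.n (Tb.n (Tb.l (SV.p 18 6 (SV.n 21 2 (SV.p 22 12 (SV.p 25 16 SV.nil))))) Tb.e) (Tb.n (Tb.l (SV.p 14 2 (SV.p 17 2 (SV.p 18 2 (SV.p 21 2 (SV.p 22 2 (SV.p 25 2 SV.nil))))))) Tb.e))) (Tb.n (Tb.n (Tb.n (Tb.l (SV.n 19 1 (SV.n 20 5 (SV.n 23 2 (SV.n 24 6 SV.nil))))) Tb.e) (Tb.n (Tb.l (SV.n 16 4 (SV.n 20 4 (SV.n 24 4 SV.nil)))) Tb.e)) (Tb.n (Tb.n (Tb.l (SV.p 15 2 (SV.n 16 2 (SV.p 19 2 (SV.n 20 2 (SV.p 23 2 (SV.n 24 2 SV.nil))))))) Tb.e) Tb.e))))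

noncomputable def r10 : Tb SV := (Tb.n (Tb.n (Tb.n (Tb.n (Tb.n (Tb.l (SV.p 10 1 SV.nil)) Tb.e) (Tb.n (Tb.l (SV.p 15 4 (SV.p 19 4 (SV.p 23 4 SV.nil)))) Tb.e)) (Tb.n (Tb.n (Tb.l (SV.n 15 2 (SV.p 19 2 (SV.p 23 6 SV.nil)))) Tb.e) Tb.e)) (Tb.n (Tb.n (Tb.n (Tb.l (SV.n 14 1 (SV.n 17 3 (SV.p 18 1 (SV.n 21 5 (SV.n 22 1 (SV.n 25 3 SV.nil))))))) Tb.e) Tb.e) (Tb.n (Tb.n (Tb.l (SV.n 14 2 (SV.n 17 2 (SV.n 18 2 (SV.n 21 2 (SV.n 22 2 (SV.n 25 2 SV.nil))))))) Tb.e) Tb.e))) (Tb.n (Tb.n (Tb.n (Tb.n (Tb.l (SV.p 11 1 SV.nil)) Tb.e) (Tb.n (Tb.l (SV.p 14 4 (SV.p 17 4 (SV.p 21 4 SV.nil)))) Tb.e)) (Tb.n (Tb.n (Tb.l (SV.n 14 3 (SV.p 17 1 (SV.n 18 3 (SV.p 21 5 (SV.n 22 3 (SV.n 25 3 SV.nil))))))) Tb.e)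 Tb.e)) (Tb.n (Tb.n (Tb.n (Tb.l (SV.n 19 2 (SV.n 20 2 (SV.n 23 4 (SV.n 24 4 SV.nil))))) Tb.e) Tb.e) (Tb.n (Tb.n (Tb.l (SV.n 15 2 (SV.n 16 2 (SV.n 19 2 (SV.n 20 2 (SV.n 23 2 (SV.n 24 2 SV.nil))))))) Tb.e) Tb.e))))

noncomputable def r11 : Tb SV := (Tb.n (Tb.n (Tb.n (Tb.n (Tb.n (Tb.l (SV.p 11 1 SV.nil)) Tb.e) (Tb.n (Tb.l (SV.n 14 2 (SV.n 17 2 (SV.n 18 2 (SV.n 21 2 (SV.n 22 2 (SV.n 25 2 SV.nil))))))) Tb.e)) (Tb.n (Tb.n (Tb.l (SV.n 17 2 (SV.n 21 4 (SV.n 22 2 (SV.n 25 4 SV.nil))))) Tb.e) Tb.e)) (Tb.n (Tb.n (Tb.n (Tb.l (SV.p 15 1 (SV.p 16 1 (SV.p 19 5 (SV.p 20 1 (SV.p 23 9 (SV.p 24 1 SV.nil))))))) Tb.e) Tb.e) (Tb.n (Tb.n (Tb.l (SV.p 15 4 (SV.p 19 4 (SV.p 23 4 SV.nil)))) Tb.e) Tb.e)))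 (Tb.n (Tb.n (Tb.n (Tb.n (Tb.l (SV.p 10 1 SV.nil)) Tb.e) (Tb.n (Tb.l (SV.n 15 2 (SV.n 16 2 (SV.n 19 2 (SV.n 20 2 (SV.n 23 2 (SV.n 24 2 SV.nil))))))) Tb.e)) (Tb.n (Tb.n (Tb.l (SV.p 15 1 (SV.n 16 1 (SV.n 19 1 (SV.n 20 3 (SV.n 23 3 (SV.n 24 5 SV.nil))))))) Tb.e) Tb.e)) (Tb.n (Tb.n (Tb.n (Tb.l (SV.p 17 4 (SV.n 18 2 (SV.p 21 8 (SV.n 22 2 (SV.n 25 2 SV.nil)))))) Tb.e) Tb.e) (Tb.n (Tb.n (Tb.l (SV.p 14 4 (SV.p 17 4 (SV.p 21 4 SV.nil)))) Tb.e) Tb.e))))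

noncomputable def r12 : Tb SV := (Tb.n (Tb.n (Tb.n (Tb.n (Tb.n (Tb.l (SV.p 12 1 SV.nil)) Tb.e) (Tb.n (Tb.l (SV.p 18 4 (SV.p 22 4 (SV.p 25 4 SV.nil)))) Tb.e)) (Tb.n (Tb.n (Tb.l (SV.p 14 1 (SV.p 17 1 (SV.n 18 3 (SV.p 21 1 (SV.p 22 1 (SV.p 25 5 SV.nil))))))) Tb.e) Tb.e)) (Tb.n (Tb.n (Tb.n (Tb.l (SV.n 15 2 (SV.n 19 4 (SV.n 20 2 (SV.n 23 6 (SV.n 24 4 SV.nil)))))) Tb.e) Tb.e) (Tb.n (Tb.n (Tb.l (SV.n 15 2 (SV.n 16 2 (SV.n 19 2 (SV.n 20 2 (SV.n 23 2 (SV.n 24 2 SV.nil))))))) Tb.e) Tb.e))) (Tb.n (Tb.n (Tb.n (Tb.n (Tb.l (SV.p 13 1 SV.nil)) Tb.e) (Tb.n (Tb.l (SV.p 16 4 (SV.p 20 4 (SV.p 24 4 SV.nil)))) Tb.e)) (Tb.n (Tb.n (Tb.l (SV.n 15 2 (SV.n 16 4 (SV.n 19 2 (SV.n 23 2 (SV.p 24 4 SV.nil))))))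 Tb.e) Tb.e)) (Tb.n (Tb.n (Tb.n (Tb.l (SV.n 14 3 (SV.n 17 5 (SV.p 18 1 (SV.n 21 7 (SV.n 22 1 (SV.n 25 3 SV.nil))))))) Tb.e) Tb.e) (Tb.n (Tb.n (Tb.l (SV.n 14 2 (SV.n 17 2 (SV.n 18 2 (SV.n 21 2 (SV.n 22 2 (SV.n 25 2 SV.nil))))))) Tb.e) Tb.e))))

noncomputable def r13 : Tb SV := (Tb.n (Tb.n (Tb.n (Tb.n (Tb.n (Tb.l (SV.p 13 1 SV.nil)) Tb.e) (Tb.n (Tb.l (SV.n 15 2 (SV.n 16 2 (SV.n 19 2 (SV.n 20 2 (SV.n 23 2 (SV.n 24 2 SV.nil))))))) Tb.e)) (Tb.n (Tb.n (Tb.l (SV.p 15 1 (SV.p 16 1 (SV.n 19 1 (SV.n 20 1 (SV.n 23 3 (SV.n 24 3 SV.nil))))))) Tb.e) Tb.e)) (Tb.n (Tb.n (Tb.n (Tb.l (SV.n 18 2 (SV.p 22 2 (SV.p 25 6 SV.nil)))) Tb.e) Tb.e) (Tb.n (Tb.n (Tb.l (SV.p 18 4 (SV.p 22 4 (SV.p 25 4 SV.nil))))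 Tb.e) Tb.e))) (Tb.n (Tb.n (Tb.n (Tb.n (Tb.l (SV.p 12 1 SV.nil)) Tb.e) (Tb.n (Tb.l (SV.n 14 2 (SV.n 17 2 (SV.n 18 2 (SV.n 21 2 (SV.n 22 2 (SV.n 25 2 SV.nil))))))) Tb.e)) (Tb.n (Tb.n (Tb.l (SV.n 17 2 (SV.p 18 2 (SV.n 21 4 (SV.n 25 2 SV.nil))))) Tb.e) Tb.e)) (Tb.n (Tb.n (Tb.n (Tb.l (SV.n 15 3 (SV.n 16 3 (SV.n 19 3 (SV.p 20 1 (SV.n 23 3 (SV.p 24 5 SV.nil))))))) Tb.e) Tb.e) (Tb.n (Tb.n (Tb.l (SV.p 16 4 (SV.p 20 4 (SV.p 24 4 SV.nil)))) Tb.e) Tb.e))))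

noncomputable def r14 : Tb SV := (Tb.n (Tb.n (Tb.n (Tb.n (Tb.n (Tb.l (SV.p 14 1 SV.nil)) Tb.e) Tb.e) Tb.e) Tb.e) (Tb.n (Tb.n (Tb.n (Tb.n (Tb.l (SV.n 16 1 (SV.p 23 1 (SV.p 24 1 SV.nil)))) Tb.e) Tb.e) Tb.e) Tb.e))

noncomputable def r15 : Tb SV := (Tb.n (Tb.n (Tb.n (Tb.n (Tb.n (Tb.l (SV.p 15 1 SV.nil)) Tb.e) Tb.e) Tb.e) Tb.e) (Tb.n (Tb.n (Tb.n (Tb.n (Tb.l (SV.p 14 1 (SV.p 18 1 (SV.n 25 1 SV.nil)))) Tb.e) Tb.e) Tb.e) Tb.e))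

noncomputable def r16 : Tb SV := (Tb.n (Tb.n (Tb.n (Tb.n (Tb.n (Tb.l (SV.p 16 1 SV.nil)) Tb.e) Tb.e) Tb.e) Tb.e) (Tb.n (Tb.n (Tb.n (Tb.n (Tb.l (SV.p 25 1 SV.nil)) Tb.e) Tb.e) Tb.e) Tb.e))

noncomputable def r17 : Tb SV := (Tb.n (Tb.n (Tb.n (Tb.n (Tb.n (Tb.l (SV.p 17 1 SV.nil)) Tb.e) Tb.e) Tb.e) Tb.e) (Tb.n (Tb.n (Tb.n (Tb.n (Tb.l (SV.p 15 1 (SV.p 16 1 (SV.n 20 1 (SV.n 23 3 (SV.n 24 3 SV.nil)))))) Tb.e) Tb.e) Tb.e) Tb.e))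

noncomputable def r18 : Tb SV := (Tb.n (Tb.n (Tb.n (Tb.n (Tb.n (Tb.l (SV.p 18 1 SV.nil)) Tb.e) Tb.e) Tb.e) Tb.e) (Tb.n (Tb.n (Tb.n (Tb.n (Tb.l (SV.p 16 1 SV.nil)) Tb.e) Tb.e) Tb.e) Tb.e))

noncomputable def r19 : Tb SV := (Tb.n (Tb.n (Tb.n (Tb.n (Tb.n (Tb.l (SV.p 19 1 SV.nil)) Tb.e) Tb.e) Tb.e) Tb.e) (Tb.n (Tb.n (Tb.n (Tb.n (Tb.l (SV.p 17 1 (SV.n 18 1 (SV.p 22 1 (SV.p 25 3 SV.nil))))) Tb.e) Tb.e) Tb.e) Tb.e))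

noncomputable def r20 : Tb SV := (Tb.n (Tb.n (Tb.n (Tb.n (Tb.n (Tb.l (SV.p 20 1 SV.nil)) Tb.e) Tb.e) Tb.e) Tb.e) (Tb.n (Tb.n (Tb.n (Tb.n (Tb.l (SV.p 18 1 (SV.n 25 3 SV.nil))) Tb.e) Tb.e) Tb.e) Tb.e))

noncomputable def r21 : Tb SV := (Tb.n (Tb.n (Tb.n (Tb.n (Tb.n (Tb.l (SV.p 21 1 SV.nil)) Tb.e) Tb.e) Tb.e) Tb.e) (Tb.n (Tb.n (Tb.n (Tb.n (Tb.l (SV.p 19 1 (SV.p 20 1 (SV.p 23 3 (SV.p 24 2 SV.nil))))) Tb.e) Tb.e) Tb.e) Tb.e))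

noncomputable def r22 : Tb SV := (Tb.n (Tb.n (Tb.n (Tb.n (Tb.n (Tb.l (SV.p 22 1 SV.nil)) Tb.e) Tb.e) Tb.e) Tb.e) (Tb.n (Tb.n (Tb.n (Tb.n (Tb.l (SV.p 20 1 SV.nil)) Tb.e) Tb.e) Tb.e) Tb.e))

noncomputable def r23 : Tb SV := (Tb.n (Tb.n (Tb.n (Tb.n (Tb.n (Tb.l (SV.p 23 1 SV.nil)) Tb.e) Tb.e) Tb.e) Tb.e) (Tb.n (Tb.n (Tb.n (Tb.n (Tb.l (SV.p 21 1 (SV.n 22 1 (SV.n 25 2 SV.nil)))) Tb.e) Tb.e) Tb.e) Tb.e))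

noncomputable def r24 : Tb SV := (Tb.n (Tb.n (Tb.n (Tb.n (Tb.n (Tb.l (SV.p 24 1 SV.nil)) Tb.e) Tb.e) Tb.e) Tb.e) (Tb.n (Tb.n (Tb.n (Tb.n (Tb.l (SV.p 22 1 (SV.p 25 3 SV.nil))) Tb.e) Tb.e) Tb.e) Tb.e))

noncomputable def r25 : Tb SV := (Tb.n (Tb.n (Tb.n (Tb.n (Tb.n (Tb.l (SV.p 25 1 SV.nil)) Tb.e) Tb.e) Tb.e) Tb.e) (Tb.n (Tb.n (Tb.n (Tb.n (Tb.l (SV.p 24 1 SV.nil)) Tb.e) Tb.e) Tb.e) Tb.e))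

noncomputable def rows : Tb (Tb SV) := (Tb.n (Tb.n (Tb.n (Tb.n (Tb.n (Tb.l r0) (Tb.l r16)) (Tb.n (Tb.l r8) (Tb.l r24))) (Tb.n (Tb.n (Tb.l r4) (Tb.l r20)) (Tb.n (Tb.l r12) Tb.e))) (Tb.n (Tb.n (Tb.n (Tb.l r2) (Tb.l r18)) (Tb.n (Tb.l r10) Tb.e)) (Tb.n (Tb.n (Tb.l r6) (Tb.l r22)) (Tb.n (Tb.l r14) Tb.e)))) (Tb.n (Tb.n (Tb.n (Tb.n (Tb.l r1) (Tb.l r17)) (Tb.n (Tb.l r9) (Tb.l r25))) (Tb.n (Tb.n (Tb.l r5) (Tb.l r21)) (Tb.n (Tb.l r13) Tb.e))) (Tb.n (Tb.n (Tb.n (Tb.l r3) (Tb.l r19)) (Tb.n (Tb.l r11) Tb.e)) (Tb.n (Tb.n (Tb.l r7) (Tb.l r23)) (Tb.n (Tb.l r15) Tb.e)))))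

noncomputable def T (i j : ℕ) : SV := Tb.get SV.nil (Tb.get Tb.e rows i) j

noncomputable def pr (i : ℕ) : ℕ := Nat.mod (Nat.div 26843546 (Nat.pow 2 i)) 2

noncomputable def tb : Tbl := ⟨26, pr, T⟩

theorem chk : Chk tb := by
  constructor <;> decide +kernel

end Pool.Agent.Helper805.ChainM.D6
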