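import Pool.Agent.Helper805.ChainM.G5
set_option autoImplicit false

/-! The values of `P5` and `P6` on sums of nilpotent elements. -/

namespace Pool.Agent.Helper805.ChainM.G5
open Pool.Agent.Helper805.Chain
  Pool.Agent.Helper805.Mod Pool.Agent.Helper805.Mod.Sparse Pool.Agent.Helper805.ChainM.Tab Pool.Agent.Helper805.ChainM.Rg
  Pool.Agent.Helper805.ChainM.Mo Pool.Agent.Helper805.ChainM.Ev

variable {K : Type} [Field K] {C : Type} [Ring C] [Algebra K C]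

section
variable {w : ℕ → ℕ → C} (hc : ∀ i j k l, Commute (w i j) (w k l)) (hs : ∀ i j, w i j * w i j = 0)
include hc hs

theorem P5_w : Ex.P5.val (sgl K t5 1 (0 + w 0 0 + w 1 1 + w 2 2 + w 3 3 + w 4 4) + sgl K t5 2 (0 + w 5 0 + w 6 1))
    (sgl K t5 1 (0 + w 0 5 + w 1 6) + sgl K t5 2 (0 + w 5 5 + w 6 6)) 0 i5 =
    (-8640 : ℤ) • ((1 * w 0 0 * w 1 1 * w 2 2 * w 3 3 * w 4 4) * (1 * w 5 5 * w 6 6)) := by
  have z0 : ∀ x : C, Commute 0 x := Commute.zero_left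
  have h1 : ∀ i j k l, Commute (0 + w i j) (w k l) := fun i j k l => (z0 _).add_left (hc _ _ _ _)
  have h2 : ∀ i j i' j' k l, Commute (0 + w i j + w i' j') (w k l) := fun _ _ _ _ _ _ => (h1 _ _ _ _).add_left (hc _ _ _ _)
  have h5 : ∀ k l, Commute (0 + w 0 0 + w 1 1 + w 2 2 + w 3 3 + w 4 4) (w k l) := fun k l =>
    ((((h2 _ _ _ _ _ _).add_left (hc _ _ _ _)).add_left (hc _ _ _ _)).add_left (hc _ _ _ _))
  have nh : Nl (0 + w 0 0 + w 1 1 + w 2 2 + w 3 3 + w 4 4) (1 * w 0 0 * w 1 1 * w 2 2 * w 3 3 * w 4 4) 5 :=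
    (((((Nl.base.step (z0 _) (hs _ _)).step (h1 _ _ _ _) (hs _ _)).step (h2 _ _ _ _ _ _) (hs _ _)).step
      ((h2 _ _ _ _ _ _).add_left (hc _ _ _ _)) (hs _ _)).step
      (((h2 _ _ _ _ _ _).add_left (hc _ _ _ _)).add_left (hc _ _ _ _)) (hs _ _))
  have n2 : ∀ i j i' j', Nl (0 + w i j + w i' j') (1 * w i j * w i' j') 2 := fun i j i' j' =>
    (Nl.base.step (z0 _) (hs _ _)).step (h1 _ _ _ _) (hs _ _)
  have c5 : ∀ i j i' j', Commute (0 + w 0 0 + w 1 1 + w 2 2 + w 3 3 + w 4 4) (0 + w i j + w i' j') := fun i j i' j' =>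
    ((Commute.zero_right _).add_right (h5 _ _)).add_right (h5 _ _)
  have c2 : ∀ i j i' j' k l k' l', Commute (0 + w i j + w i' j') (0 + w k l + w k' l') := fun _ _ _ _ _ _ _ _ =>
    ((Commute.zero_right _).add_right (h2 _ _ _ _ _ _)).add_right (h2 _ _ _ _ _ _)
  rw [P5_eq (c5 _ _ _ _) (c5 _ _ _ _) (c5 _ _ _ _) (c2 _ _ _ _ _ _ _ _) (c2 _ _ _ _ _ _ _ _) (c2 _ _ _ _ _ _ _ _)
    (fun _ h => nh.big h) (fun _ h => (n2 _ _ _ _).big h) (fun _ h => (n2 _ _ _ _).big h)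
    (fun _ h => (n2 _ _ _ _).big h), nh.top, (n2 5 5 6 6).top, smul_mul_assoc, mul_smul_comm, smul_smul,
    ← natCast_zsmul, smul_smul]
  congr 1

end

section
variable {w : ℕ → C} {a b : C} (hc : ∀ i k, Commute (w i) (w k)) (hs : ∀ i, w i * w i = 0)
  (ha : ∀ i, a * w i = -(w i * a)) (hb : ∀ i, b * w i = -(w i * b)) (hab : Commute a b) (ha2 : a * a = 0)
  (hb2 : b * b = 0)
include hc hs ha hb hab ha2 hb2

theorem P6_w : Ex.P6.val (sgl K t6 1 (0 + w 0 + w 1 + w 2 + w 3 + w 4 + w 5) + sgl K t6 2 a)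
    (sgl K t6 1 b + sgl K t6 2 1) 0 i6 = (-25920 : ℤ) • (1 * w 0 * w 1 * w 2 * w 3 * w 4 * w 5) := by
  have z0 : ∀ x : C, Commute 0 x := Commute.zero_left
  have h1 : ∀ k, Commute (0 + w 0) (w k) := fun k => (z0 _).add_left (hc _ _)
  have h2 : ∀ k, Commute (0 + w 0 + w 1) (w k) := fun k => (h1 _).add_left (hc _ _)
  have h3 : ∀ k, Commute (0 + w 0 + w 1 + w 2) (w k) := fun k => (h2 _).add_left (hc _ _)
  have h4 : ∀ k, Commute (0 + w 0 + w 1 + w 2 + w 3) (w k) := fun k => (h3 _).add_left (hc _ _)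
  have h5 : ∀ k, Commute (0 + w 0 + w 1 + w 2 + w 3 + w 4) (w k) := fun k => (h4 _).add_left (hc _ _)
  have nh : Nl (0 + w 0 + w 1 + w 2 + w 3 + w 4 + w 5) (1 * w 0 * w 1 * w 2 * w 3 * w 4 * w 5) 6 :=
    ((((((Nl.base.step (z0 _) (hs _)).step (h1 _) (hs _)).step (h2 _) (hs _)).step (h3 _) (hs _)).step (h4 _)
      (hs _)).step (h5 _) (hs _))
  have e : ∀ u : C, (∀ i, u * w i = -(w i * u)) → u * (0 + w 0 + w 1 + w 2 + w 3 + w 4 + w 5) =
      -((0 + w 0 + w 1 + w 2 + w 3 + w 4 + w 5) * u) := by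
    intro u hu
    simp only [mul_add, add_mul, hu, zero_mul, mul_zero]
    abel
  have sq : ∀ u : C, u * u = 0 → ∀ k, 1 < k → u ^ k = 0 := by
    intro u hu k hk
    obtain ⟨d, rfl⟩ := Nat.exists_eq_add_of_lt hk
    rw [show 1 + d + 1 = 2 + d by ring, pow_add, pow_two, hu, zero_mul]
  rw [P6_eq (e a ha) (e b hb) hab (fun _ h => nh.big h) (sq a ha2) (sq b hb2), nh.top, ← natCast_zsmul, smul_smul]
  congr 1

end

end Pool.Agent.Helper805.ChainM.G5
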