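import Pool.Agent.Helper805.ChainM.Xi
set_option autoImplicit false

/-! Iterated products with commutators in the models. -/

namespace Pool.Agent.Helper805.ChainM.It
open Pool.Agent.Helper805.Nuc.Ext Pool.Agent.Helper805.Nuc.Tens Pool.Agent.Helper805.Chain.Var
  Pool.Agent.Helper805.Mod Pool.Agent.Helper805.Mod.Sparse Pool.Agent.Helper805.ChainM.Tab Pool.Agent.Helper805.ChainM.Rg
  Pool.Agent.Helper805.ChainM.Xi

section
variable {K : Type} [Field K] {C : Type} [Ring C] [Algebra K C] {t : Tbl}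

/-- basis vector `0` is a right unit and basis vector `1` has square `0` -/
structure Un (t : Tbl) : Prop where
  pos : 1 < t.N
  un : ∀ i < t.N, t.T i 0 = SV.p i 1 SV.nil
  sq : t.T 1 1 = SV.p 0 1 SV.nil

variable (hU : Un t)
include hU

lemma mul_sgl0 (f : SR K C t) (u : C) (i : Fin (D t).N) : (f * sgl K t 0 u) i = f i * u := by
  rw [SR.mul_def]
  show ∑ a : Fin (D t).N, ∑ b : Fin (D t).N, (D t).ck K a b i • (f a * (if (b : ℕ) = 0 then u else 0)) = _
  have h0 : 0 < (D t).N := lt_trans Nat.zero_lt_one hU.pos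
  rw [Finset.sum_eq_single i]
  · rw [Finset.sum_eq_single (⟨0, h0⟩ : Fin (D t).N)]
    · have e : (D t).ck K i 0 i = 1 := by
        show (((t.T i 0).cf i : ℤ) : K) = 1
        rw [hU.un i i.2]
        simp [SV.cf]
      show (D t).ck K i 0 i • (f i * (if 0 = 0 then u else 0)) = _
      rw [e, if_pos rfl, one_smul]
    · intro b _ hb
      have : (b : ℕ) ≠ 0 := fun h => hb (Fin.ext h)
      rw [if_neg this, mul_zero, smul_zero]
    · intro h; exact absurd (Finset.mem_univ _) h
  · intro a _ ha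
    apply Finset.sum_eq_zero
    intro b _
    by_cases hb : (b : ℕ) = 0
    · have e : (D t).ck K a b i = 0 := by
        show (((t.T a b).cf i : ℤ) : K) = 0
        rw [hb, hU.un a a.2]
        have : (a : ℕ) ≠ (i : ℕ) := fun h => ha (Fin.ext h)
        simp [SV.cf, this]
      rw [e, zero_smul]
    · rw [if_neg hb, mul_zero, smul_zero]
  · intro h; exact absurd (Finset.mem_univ _) h

lemma br_sgl1 (u v : C) (huv : u * v = -(v * u)) :
    br (sgl K t 1 u) (sgl K t 1 v) = sgl K t 0 ((2 : ℤ) • (u * v)) := by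
  unfold br
  have e : ∀ u v : C, sgl K t 1 u * sgl K t 1 v = sgl K t 0 (u * v) := by
    intro u v
    rw [sgl_mul hU.pos hU.pos, hU.sq]
    funext i
    rw [sgl_apply]
    show ((((if 0 = (i : ℕ) then ((1 : ℕ) : ℤ) else 0) + 0 : ℤ)) : K) • (u * v) = _
    by_cases h : (i : ℕ) = 0
    · rw [if_pos h, if_pos h.symm]; simp
    · rw [if_neg h, if_neg (fun e => h e.symm)]; simp
  rw [e, e, ← map_sub]
  congr 1
  have : v * u = -(u * v) := by rw [huv, neg_neg]
  rw [this, sub_neg_eq_add, two_smul]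

/-- the additional factor -/
noncomputable def PE (g : ℕ → C) (q : ℕ) : ℕ → C
  | 0 => 1
  | k + 1 => PE g q k * (g (q + 2 * k) * g (q + 2 * k + 1))

theorem iter_val {q : ℕ} (P : PF q) (hq : 0 < q) (y : ℕ → SR K C t) (z w : SR K C t) (g : ℕ → C)
    (hy : ∀ j, q ≤ j → y j = sgl K t 1 (g j)) (hg : ∀ i j, g i * g j = -(g j * g i)) (k : ℕ) (i : Fin (D t).N) :
    (P.iter hq k).F (SR K C t) (fun s : Fin (q + 2 * k) => y s) z w i =
      ((6 : ℤ) ^ k) • (P.F (SR K C t) (fun s : Fin q => y s) z w i * PE g q k) := by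
  induction k with
  | zero =>
    show P.F (SR K C t) (fun s : Fin q => y s) z w i = ((6 : ℤ) ^ 0) • (_ * 1)
    rw [pow_zero, one_smul, mul_one]
  | succ k ih =>
    have e1 : (P.iter hq (k + 1)).F (SR K C t) (fun s : Fin (q + 2 * (k + 1)) => y s) z w =
        (3 : ℤ) • ((P.iter hq k).F (SR K C t) (fun s : Fin (q + 2 * k) => y s) z w *
          br (y (q + 2 * k)) (y (q + 2 * k + 1))) := rfl
    rw [e1, hy _ (by omega), hy _ (by omega), br_sgl1 hU _ _ (hg _ _)]
    show (3 : ℤ) • (((P.iter hq k).F (SR K C t) (fun s : Fin (q + 2 * k) => y s) z w *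
      sgl K t 0 ((2 : ℤ) • (g (q + 2 * k) * g (q + 2 * k + 1)))) i) = _
    rw [mul_sgl0 hU, ih]
    show _ = ((6 : ℤ) ^ (k + 1)) • (_ * (PE g q k * (g (q + 2 * k) * g (q + 2 * k + 1))))
    rw [mul_smul_comm, smul_mul_assoc, smul_smul, smul_smul, ← mul_assoc, pow_succ]
    congr 1
    · ring
    · simp only [mul_assoc]

end

section
variable (K : Type) [Field K] (n : ℕ)

/-- products of the first generators -/
noncomputable def PR : ℕ → LK K n
  | 0 => 1
  | m + 1 => PR m * gN K n m

lemma PR_eq (m : ℕ) (h : m ≤ n) : PR K n m = E K n (List.ofFn (fun i : Fin m => Fin.castLE h i)) := by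
  induction m with
  | zero => show (1 : LK K n) = _; rw [List.ofFn_zero, E_nil]
  | succ m ih =>
    show PR K n m * gN K n m = _
    rw [ih (by omega), List.ofFn_succ', List.concat_eq_append, E_append, E_cons, E_nil, mul_one]
    congr 1
    unfold gN
    rw [dif_pos (by omega)]
    rfl

lemma top_PR : top K n (PR K n n) = 1 := by
  rw [PR_eq K n n le_rfl]
  exact top_E K n

end

end Pool.Agent.Helper805.ChainM.It
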