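import Pool.Agent.Helper805.ChainM.Rg
import Pool.Agent.Helper805.ChainM.D6
import Pool.Agent.Helper805.Chain.Target
set_option autoImplicit false

/-! The value of `P6` on `x = θ h + y a`, `z = θ b + y`. -/

namespace Pool.Agent.Helper805.ChainM.V6
open Pool.Agent.Helper805.Mod.Sparse Pool.Agent.Helper805.Mod Pool.Agent.Helper805.ChainM.Tab
  Pool.Agent.Helper805.ChainM.Ev Pool.Agent.Helper805.ChainM.Rg Pool.Agent.Helper805.Chain

/-- admissible exponents -/
noncomputable def vd (a : ℕ) : Bool :=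
  and (Nat.ble (Nat.mod a 16) 6) (and (Nat.ble (Nat.mod (Nat.div a 16) 16) 1) (Nat.ble (Nat.div a 256) 1))

/-- the sign -/
noncomputable def sn (a b : ℕ) : Bool :=
  Nat.beq (Nat.mod (Nat.mul (Nat.add (Nat.mod (Nat.div a 16) 16) (Nat.div a 256)) (Nat.mod b 16)) 2) 1

/-- products of monomials -/
noncomputable def op (a b : ℕ) : SV := cond (and (vd a) (and (vd b) (vd (Nat.add a b))))
  (cond (sn a b) (SV.n (Nat.add a b) 1 SV.nil) (SV.p (Nat.add a b) 1 SV.nil)) SV.nil

/-- `θ h + y a` -/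
def X : SV := SV.p 65 1 (SV.p 1026 1 SV.nil)
/-- `θ b + y` -/
def Z : SV := SV.p 16385 1 (SV.p 2 1 SV.nil)
/-- the value -/
def W : SV := SV.n 398 36 (SV.n 401 36 (SV.n 402 36 (SV.n 405 36 (SV.n 406 36 (SV.n 409 36 SV.nil)))))

theorem val : eqv (evx (TT 26 D6.T op) X Z SV.nil Ex.P6) W = true := by decide +kernel

end Pool.Agent.Helper805.ChainM.V6
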