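import Pool.Agent.Helper805.ChainM.N5
set_option autoImplicit false

/-! The value of `F6` in the model. -/

namespace Pool.Agent.Helper805.ChainM.N6
open scoped TensorProduct
open Pool.Agent.Helper805.Nuc.Ext Pool.Agent.Helper805.Nuc.Tens Pool.Agent.Helper805.Chain
  Pool.Agent.Helper805.Mod Pool.Agent.Helper805.Mod.Sparse Pool.Agent.Helper805.ChainM.Tab Pool.Agent.Helper805.ChainM.Rg
  Pool.Agent.Helper805.ChainM.Xi Pool.Agent.Helper805.ChainM.It Pool.Agent.Helper805.ChainM.G5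
  Pool.Agent.Helper805.ChainM.N5

variable (K : Type) [Field K] (n : ℕ)

/-- the arguments -/
noncomputable def y (j : ℕ) : SR K (LK K n) t6 :=
  if j = 0 then sgl K t6 1 (gN K n 0) + sgl K t6 2 1 else sgl K t6 1 (gN K n j)

lemma y0 : y K n 0 = sgl K t6 1 (gN K n 0) + sgl K t6 2 1 := rfl
lemma y_pos (j : ℕ) (hj : 0 < j) : y K n j = sgl K t6 1 (gN K n j) := by
  unfold y
  rw [if_neg (by omega)]

/-- `1 ⊗ ε_0` -/
noncomputable def aa : CC K n 6 := (1 : LK K n) ⊗ₜ[ℤ] gZ 6 0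
/-- `e_0 ⊗ 1` -/
noncomputable def bb : CC K n 6 := gN K n 0 ⊗ₜ[ℤ] (1 : ExteriorAlgebra ℤ (Fin 6 → ℤ))

lemma ha (i : ℕ) : aa K n * ww K n 6 i i = -(ww K n 6 i i * aa K n) := by
  unfold aa ww
  rw [Algebra.TensorProduct.tmul_mul_tmul, Algebra.TensorProduct.tmul_mul_tmul, one_mul, mul_one, gZ_anti,
    TensorProduct.tmul_neg]

lemma hb (i : ℕ) : bb K n * ww K n 6 i i = -(ww K n 6 i i * bb K n) := by
  unfold bb ww
  rw [Algebra.TensorProduct.tmul_mul_tmul, Algebra.TensorProduct.tmul_mul_tmul, one_mul, mul_one, gN_anti,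
    TensorProduct.neg_tmul]

lemma hab : Commute (aa K n) (bb K n) := by
  show aa K n * bb K n = bb K n * aa K n
  unfold aa bb
  rw [Algebra.TensorProduct.tmul_mul_tmul, Algebra.TensorProduct.tmul_mul_tmul, one_mul, mul_one, one_mul, mul_one]

lemma ha2 : aa K n * aa K n = 0 := by
  unfold aa
  rw [Algebra.TensorProduct.tmul_mul_tmul, gZ_sq, TensorProduct.tmul_zero]

lemma hb2 : bb K n * bb K n = 0 := by
  unfold bb
  rw [Algebra.TensorProduct.tmul_mul_tmul, gN_sq, TensorProduct.zero_tmul]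

lemma Xi_XX : Xi K n t6 (XX id (fun s : Fin 6 => y K n s)) =
    sgl K t6 1 (0 + ww K n 6 0 0 + ww K n 6 1 1 + ww K n 6 2 2 + ww K n 6 3 3 + ww K n 6 4 4 + ww K n 6 5 5) +
      sgl K t6 2 (aa K n) := by
  have e : XX id (fun s : Fin 6 => y K n s) = te (y K n 0) [0] + te (y K n 1) [1] + te (y K n 2) [2] +
      te (y K n 3) [3] + te (y K n 4) [4] + te (y K n 5) [5] := by
    unfold XX
    rw [Fin.sum_univ_six]
    rfl
  have a0 : ((0 : Fin 6) : ℕ) = 0 := rfl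
  have a1 : ((1 : Fin 6) : ℕ) = 1 := rfl
  have a2 : ((2 : Fin 6) : ℕ) = 2 := rfl
  have a3 : ((3 : Fin 6) : ℕ) = 3 := rfl
  have a4 : ((4 : Fin 6) : ℕ) = 4 := rfl
  have a5 : ((5 : Fin 6) : ℕ) = 5 := rfl
  have ea : Xi K n t6 (te (sgl K t6 2 (1 : LK K n)) [(0 : Fin 6)]) = sgl K t6 2 (aa K n) := by
    rw [Xi_te_one, gZ_fin, a0]; rfl
  rw [e, y0, y_pos K n 1 (by norm_num), y_pos K n 2 (by norm_num), y_pos K n 3 (by norm_num),
    y_pos K n 4 (by norm_num), y_pos K n 5 (by norm_num), ← te_add, map_add, map_add, map_add, map_add, map_add, map_add,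
    Xi_w, Xi_w, Xi_w, Xi_w, Xi_w, Xi_w, ea, a0, a1, a2, a3, a4, a5]
  simp only [map_add, map_zero]
  abel

lemma Xi_par : Xi K n t6 (te (y K n 0) ([] : List (Fin 6))) = sgl K t6 1 (bb K n) + sgl K t6 2 1 := by
  rw [y0, ← te_add, map_add, Xi_te_nil, Xi_te_nil]
  rfl

lemma prod_eq : (1 * ww K n 6 0 0 * ww K n 6 1 1 * ww K n 6 2 2 * ww K n 6 3 3 * ww K n 6 4 4 * ww K n 6 5 5 :
    CC K n 6) = (PR K n 6) ⊗ₜ[ℤ] (E ℤ 6 (List.ofFn (fun i : Fin 6 => i))) := by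
  unfold ww
  have e1 : (1 : CC K n 6) = (1 : LK K n) ⊗ₜ[ℤ] (1 : ExteriorAlgebra ℤ (Fin 6 → ℤ)) := rfl
  rw [e1]
  simp only [Algebra.TensorProduct.tmul_mul_tmul]
  have e2 : PR K n 6 = 1 * gN K n 0 * gN K n 1 * gN K n 2 * gN K n 3 * gN K n 4 * gN K n 5 := rfl
  have e3 : E ℤ 6 (List.ofFn (fun i : Fin 6 => i)) = 1 * gZ 6 0 * gZ 6 1 * gZ 6 2 * gZ 6 3 * gZ 6 4 * gZ 6 5 := by
    have e4 : E ℤ 6 (List.ofFn (fun i : Fin 6 => i)) = ([0, 1, 2, 3, 4, 5].map (gen ℤ 6)).prod := rfl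
    rw [e4]
    simp only [List.map_cons, List.map_nil, List.prod_cons, List.prod_nil, one_mul, mul_one, mul_assoc]
    rfl
  rw [e2, e3]

/-- the value of `F6` -/
theorem F6_eq : F6 (fun s : Fin 6 => y K n s) (y K n 0) i6 = (-25920 : ℤ) • PR K n 6 := by
  unfold F6
  rw [Fv_eq, Xi_XX, Xi_par, map_zero, P6_w (w := fun i => ww K n 6 i i) (fun _ _ => ww_comm K n 6 _ _ _ _)
    (fun _ => ww_sq K n 6 _ _) (ha K n) (hb K n) (hab K n) (ha2 K n) (hb2 K n), map_zsmul, prod_eq, tau_tmul,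
    top_E, one_smul]

end Pool.Agent.Helper805.ChainM.N6
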