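import Pool.Agent.Helper805.ChainM.Ev
import Pool.Agent.Helper805.ChainM.Tab
set_option autoImplicit false

/-! Superalgebras given by a table with coefficients in an associative algebra, and their sparse elements. -/

namespace Pool.Agent.Helper805.ChainM.Rg
open Pool.Agent.Helper805.Mod.Sparse Pool.Agent.Helper805.Mod Pool.Agent.Helper805.ChainM.Tab
  Pool.Agent.Helper805.ChainM.Ev

section
variable {K : Type} [Field K] {C : Type} [Ring C] [Algebra K C] {t : Tbl}

/-- a copy of `RR` that remembers the field -/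
def SR (K : Type) [Field K] (C : Type) [Ring C] [Algebra K C] (t : Tbl) : Type := Fin (D t).N → C

namespace SR
instance : AddCommGroup (SR K C t) := inferInstanceAs (AddCommGroup (Fin (D t).N → C))
instance : Module K (SR K C t) := inferInstanceAs (Module K (Fin (D t).N → C))
noncomputable instance : Mul (SR K C t) := ⟨fun v w => Super.rmul (K := K) (D := D t) v w⟩

lemma mul_def (v w : SR K C t) : v * w = Super.rmul (K := K) (D := D t) v w := rfl

noncomputable instance : NonUnitalNonAssocRing (SR K C t) where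
  left_distrib := fun a b c => Super.rmul_add a b c
  right_distrib := fun a b c => Super.add_rmul a b c
  zero_mul := by
    intro a
    have h2 := Super.smul_rmul (D := D t) (0 : K) (0 : Fin (D t).N → C) a
    rw [zero_smul, zero_smul] at h2
    exact h2
  mul_zero := by
    intro a
    have h2 := Super.rmul_smul (D := D t) (0 : K) a (0 : Fin (D t).N → C)
    rw [zero_smul, zero_smul] at h2
    exact h2

instance : IsScalarTower K (SR K C t) (SR K C t) := ⟨fun r a b => Super.smul_rmul r a b⟩
instance : SMulCommClass K (SR K C t) (SR K C t) := ⟨fun r a b => (Super.rmul_smul r a b).symm⟩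
end SR

/-- the element `u` at the basis vector `k` -/
def sgl (K : Type) [Field K] {C : Type} [Ring C] [Algebra K C] (t : Tbl) (k : ℕ) : C →+ SR K C t where
  toFun u := fun i => if (i : ℕ) = k then u else 0
  map_zero' := by funext i; show (if _ then (0 : C) else 0) = 0; simp
  map_add' := by
    intro u v
    funext i
    show (if _ then u + v else 0) = (if _ then u else 0) + (if _ then v else 0)
    split_ifs <;> simp

lemma sgl_apply (k : ℕ) (u : C) (i : Fin (D t).N) : sgl K t k u i = if (i : ℕ) = k then u else 0 := rfl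

lemma sgl_mul {k1 k2 : ℕ} (h1 : k1 < t.N) (h2 : k2 < t.N) (u v : C) :
    sgl K t k1 u * sgl K t k2 v =
      (fun i : Fin (D t).N => (((t.T k1 k2).cf i : ℤ) : K) • (u * v) : SR K C t) := by
  rw [SR.mul_def]
  funext l
  show ∑ i : Fin (D t).N, ∑ j : Fin (D t).N, (D t).ck K i j l • ((if (i : ℕ) = k1 then u else 0) * (if (j : ℕ) = k2 then v else 0)) = _
  rw [Finset.sum_eq_single (⟨k1, h1⟩ : Fin (D t).N)]
  · rw [Finset.sum_eq_single (⟨k2, h2⟩ : Fin (D t).N)]
    · simp only [if_true]
      rfl
    · intro b _ hb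
      have : (b : ℕ) ≠ k2 := fun h => hb (Fin.ext h)
      rw [if_neg this, mul_zero, smul_zero]
    · intro h; exact absurd (Finset.mem_univ _) h
  · intro b _ hb
    have : (b : ℕ) ≠ k1 := fun h => hb (Fin.ext h)
    apply Finset.sum_eq_zero
    intro j _
    rw [if_neg this, zero_mul, smul_zero]
  · intro h; exact absurd (Finset.mem_univ _) h

/-- a family of monomials closed under products -/
structure Mon (C : Type) [Ring C] where
  mm : ℕ → C
  op : ℕ → ℕ → SV
  law : ∀ a b, mm a * mm b = ev mm (op a b)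

variable (K t) (M : Mon C)

/-- the basis of the monomial combinations -/
noncomputable def EE (k : ℕ) : SR K C t := sgl K t (k % 64) (if k % 64 < t.N then M.mm (k / 64) else 0)

/-- their products -/
noncomputable def TT (N : ℕ) (T : ℕ → ℕ → SV) (op : ℕ → ℕ → SV) (k l : ℕ) : SV :=
  cond (and (Nat.ble (Nat.succ (Nat.mod k 64)) N) (Nat.ble (Nat.succ (Nat.mod l 64)) N))
    (bind (fun g => bind (fun i => SV.p (Nat.add i (Nat.mul 64 g)) 1 SV.nil) (T (Nat.mod k 64) (Nat.mod l 64)))
      (op (Nat.div k 64) (Nat.div l 64))) SV.nil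

theorem map_ev {R S : Type} [NonUnitalNonAssocRing R] [NonUnitalNonAssocRing S] (φ : R →+ S) (E : ℕ → R) (v : SV) :
    φ (ev E v) = ev (fun k => φ (E k)) v := by
  induction v with
  | nil => exact map_zero φ
  | p k a s ih => show φ (_ • E k + ev E s) = _ • φ (E k) + ev _ s; rw [map_add, map_zsmul, ih]
  | n k a s ih => show φ (_ • E k + ev E s) = _ • φ (E k) + ev _ s; rw [map_add, map_zsmul, ih]

variable {K t}

lemma EE_key {i : ℕ} (hi : i < t.N) (hN : t.N ≤ 64) (g : ℕ) : EE K t M (i + 64 * g) = sgl K t i (M.mm g) := by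
  unfold EE
  have h1 : (i + 64 * g) % 64 = i := by omega
  have h2 : (i + 64 * g) / 64 = g := by omega
  rw [h1, h2, if_pos hi]

lemma ev_T {v : SV} (hv : v.Ok t.N) (hN : t.N ≤ 64) (g : ℕ) :
    ev (fun i => ev (EE K t M) (SV.p (Nat.add i (Nat.mul 64 g)) 1 SV.nil)) v =
      (fun i : Fin (D t).N => ((v.cf i : ℤ) : K) • M.mm g) := by
  have e1 : ∀ i, ev (EE K t M) (SV.p (Nat.add i (Nat.mul 64 g)) 1 SV.nil) = EE K t M (i + 64 * g) := by
    intro i
    show ((1 : ℕ) : ℤ) • EE K t M _ + 0 = _
    rw [Nat.cast_one, one_smul, add_zero]; rfl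
  simp only [e1]
  induction v with
  | nil =>
    funext i
    show (0 : C) = ((0 : ℤ) : K) • M.mm g
    rw [Int.cast_zero, zero_smul]
  | p k a s ih =>
    show (a : ℤ) • EE K t M (k + 64 * g) + ev (fun i => EE K t M (i + 64 * g)) s = _
    rw [ih hv.2, EE_key M hv.1 hN]
    funext i
    show (a : ℤ) • (if (i : ℕ) = k then M.mm g else 0) + ((s.cf i : ℤ) : K) • M.mm g =
      (((if k = (i : ℕ) then (a : ℤ) else 0) + s.cf i : ℤ) : K) • M.mm g
    rw [Int.cast_add, add_smul]
    congr 1
    by_cases h : (i : ℕ) = k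
    · rw [if_pos h, if_pos h.symm, Int.cast_smul_eq_zsmul]
    · rw [if_neg h, if_neg (fun e => h e.symm), Int.cast_zero, zero_smul, smul_zero]
  | n k a s ih =>
    show (-(a : ℤ)) • EE K t M (k + 64 * g) + ev (fun i => EE K t M (i + 64 * g)) s = _
    rw [ih hv.2, EE_key M hv.1 hN]
    funext i
    show (-(a : ℤ)) • (if (i : ℕ) = k then M.mm g else 0) + ((s.cf i : ℤ) : K) • M.mm g =
      (((if k = (i : ℕ) then -(a : ℤ) else 0) + s.cf i : ℤ) : K) • M.mm g
    rw [Int.cast_add, add_smul]
    congr 1
    by_cases h : (i : ℕ) = k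
    · rw [if_pos h, if_pos h.symm, Int.cast_smul_eq_zsmul]
    · rw [if_neg h, if_neg (fun e => h e.symm), Int.cast_zero, zero_smul, smul_zero]

/-- the law of multiplication -/
theorem EE_mul (H : Chk t) (hN : t.N ≤ 64) (k l : ℕ) :
    EE K t M k * EE K t M l = ev (EE K t M) (TT t.N t.T M.op k l) := by
  by_cases h1 : k % 64 < t.N
  · by_cases h2 : l % 64 < t.N
    · have e0 : TT t.N t.T M.op k l = bind (fun g => bind (fun i => SV.p (Nat.add i (Nat.mul 64 g)) 1 SV.nil)
          (t.T (k % 64) (l % 64))) (M.op (k / 64) (l / 64)) := by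
        have h1' : Nat.ble (Nat.succ (Nat.mod k 64)) t.N = true := by rw [Nat.ble_eq]; exact h1
        have h2' : Nat.ble (Nat.succ (Nat.mod l 64)) t.N = true := by rw [Nat.ble_eq]; exact h2
        unfold TT
        rw [h1', h2']; rfl
      rw [e0, ev_bind]
      have e1 : (fun g => ev (EE K t M) (bind (fun i => SV.p (Nat.add i (Nat.mul 64 g)) 1 SV.nil) (t.T (k % 64) (l % 64)))) =
          fun g => (fun i : Fin (D t).N => ((((t.T (k % 64) (l % 64)).cf i : ℤ) : K) • M.mm g) : SR K C t) := by
        funext g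
        rw [ev_bind]
        exact ev_T M (grade H h1 h2).1.1 hN g
      rw [e1]
      unfold EE
      rw [if_pos h1, if_pos h2, sgl_mul h1 h2, M.law]
      let φ : C →+ SR K C t :=
        { toFun := fun u => (fun i : Fin (D t).N => (((t.T (k % 64) (l % 64)).cf i : ℤ) : K) • u)
          map_zero' := by funext i; exact smul_zero _
          map_add' := by intro u v; funext i; exact smul_add _ _ _ }
      exact map_ev φ M.mm _
    · have e0 : TT t.N t.T M.op k l = SV.nil := by
        have h2' : Nat.ble (Nat.succ (Nat.mod l 64)) t.N = false := by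
          rw [Bool.eq_false_iff]; intro h; rw [Nat.ble_eq] at h; exact h2 h
        unfold TT
        rw [h2', Bool.and_false]; rfl
      rw [e0]
      have : EE K t M l = 0 := by unfold EE; rw [if_neg h2, map_zero]
      rw [this, mul_zero]; rfl
  · have e0 : TT t.N t.T M.op k l = SV.nil := by
      have h1' : Nat.ble (Nat.succ (Nat.mod k 64)) t.N = false := by
        rw [Bool.eq_false_iff]; intro h; rw [Nat.ble_eq] at h; exact h1 h
      unfold TT
      rw [h1', Bool.false_and]; rfl
    rw [e0]
    have : EE K t M k = 0 := by unfold EE; rw [if_neg h1, map_zero]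
    rw [this, zero_mul]; rfl

end

end Pool.Agent.Helper805.ChainM.Rg
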