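import Pool.Agent.Helper805.ChainM.Rg
import Pool.Agent.Helper805.ChainM.D5
import Pool.Agent.Helper805.Chain.Target
set_option autoImplicit false

/-! The value of `P5` on `x = θ h + η a`, `z = θ b + η c`. -/

namespace Pool.Agent.Helper805.ChainM.V5
open Pool.Agent.Helper805.Mod.Sparse Pool.Agent.Helper805.Mod Pool.Agent.Helper805.ChainM.Tab
  Pool.Agent.Helper805.ChainM.Ev Pool.Agent.Helper805.ChainM.Rg Pool.Agent.Helper805.Chain

/-- admissible exponents -/
noncomputable def vd (a : ℕ) : Bool :=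
  and (Nat.ble (Nat.mod a 16) 5) (and (Nat.ble (Nat.mod (Nat.div a 16) 16) 2)
    (and (Nat.ble (Nat.mod (Nat.div a 256) 16) 2) (Nat.ble (Nat.div a 4096) 2)))

/-- products of monomials -/
noncomputable def op (a b : ℕ) : SV := cond (and (vd a) (and (vd b) (vd (Nat.add a b)))) (SV.p (Nat.add a b) 1 SV.nil) SV.nil

/-- `θ h + η a` -/
def X : SV := SV.p 65 1 (SV.p 1026 1 SV.nil)
/-- `θ b + η c` -/
def Z : SV := SV.p 16385 1 (SV.p 262146 1 SV.nil)
/-- the value -/
def W : SV := SV.n 524622 36 (SV.n 524625 36 (SV.p 524626 36 (SV.n 524629 36 (SV.p 524630 36 SV.nil))))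

theorem val : eqv (evx (TT 24 D5.T op) X Z SV.nil Ex.P5) W = true := by decide +kernel

end Pool.Agent.Helper805.ChainM.V5
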